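import Pool.Agent.Lib.MP_610fe3_an.PR.KALON

/-!
# Growth of a cocycle near a set where its growth is known
-/

open Set Filter Function
open scoped Topology

namespace Pool.Agent.Lib.MP610fe3.AP

open PR

universe u v

section Blocks

variable {X : Type u} {Y : Type v} [NormedAddCommGroup Y] [NormedSpace ℝ Y]
  {E : X → Y →L[ℝ] Y} {g : X → X}

open scoped Classical in
/-- The times `t < n` at which the orbit of `x` is not in `V`. -/
noncomputable def bad (g : X → X) (V : Set X) (n : ℕ) (x : X) : Finset ℕ :=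
  (Finset.range n).filter fun t => g^[t] x ∉ V

theorem mem_bad {V : Set X} {n : ℕ} {x : X} {t : ℕ} :
    t ∈ bad g V n x ↔ t < n ∧ g^[t] x ∉ V := by
  classical
  simp [bad]

/-- The bad times of `g^m x` are bad times of `x`. -/
theorem bad_shift {V : Set X} (m n : ℕ) (x : X) :
    (bad g V n (g^[m] x)).card ≤ (bad g V (m + n) x).card := by
  refine Finset.card_le_card_of_injOn (fun t => t + m) (fun t ht => ?_) (fun t _ t' _ h => by
    simpa using h)
  have h1 := mem_bad.1 ht
  have h2 : t + m ∈ bad g V (m + n) x := mem_bad.2 ⟨by omega, by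
    rw [iterate_add_apply]
    exact h1.2⟩
  exact h2

theorem bad_succ {V : Set X} (n : ℕ) {x : X} (hx : x ∉ V) :
    (bad g V n (g x)).card + 1 ≤ (bad g V (n + 1) x).card := by
  classical
  have h0 : (0 : ℕ) ∈ bad g V (n + 1) x := mem_bad.2 ⟨by omega, hx⟩
  have h1 : (bad g V n (g x)).card ≤ ((bad g V (n + 1) x).erase 0).card := by
    refine Finset.card_le_card_of_injOn (fun t => t + 1) (fun t ht => ?_) (fun t _ t' _ h => by
      simpa using h)
    have h2 := mem_bad.1 ht
    have h3 : t + 1 ∈ (bad g V (n + 1) x).erase 0 :=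
      Finset.mem_erase.2 ⟨by omega, mem_bad.2 ⟨by omega, by
        rw [iterate_succ_apply]
        exact h2.2⟩⟩
    exact h3
  rw [Finset.card_erase_of_mem h0] at h1
  have h3 : 0 < (bad g V (n + 1) x).card := Finset.card_pos.2 ⟨0, h0⟩
  omega

/-- Blocks of length `n₀` at the good times, single steps at the bad times. -/
theorem block {V : Set X} {n₀ : ℕ} (hn₀ : 0 < n₀) {c B : ℝ} (hB1 : 1 ≤ B)
    (hB : ∀ x, ‖E x‖ ≤ B) (hBc : ∀ x, ‖E x‖ ≤ B * Real.exp c)
    (hB0 : ∀ n ≤ n₀, B ^ n ≤ B ^ n₀ * B ^ n₀ * Real.exp (c * n))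
    (hV : ∀ x ∈ V, ‖iterD E g n₀ x‖ ≤ Real.exp (c * n₀)) (n : ℕ) (x : X) :
    ‖iterD E g n x‖ ≤ B ^ ((bad g V n x).card + (n₀ + n₀)) * Real.exp (c * n) := by
  have hB00 : 0 < B := by linarith
  induction n using Nat.strong_induction_on generalizing x with
  | _ n ih =>
    rcases lt_or_ge n n₀ with hn | hn
    · calc ‖iterD E g n x‖ ≤ B ^ n := it_norm_le E g hB n x
        _ ≤ B ^ n₀ * B ^ n₀ * Real.exp (c * n) := hB0 n hn.le
        _ = B ^ (n₀ + n₀) * Real.exp (c * n) := by rw [pow_add]
        _ ≤ _ := by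
          have h1 : B ^ (n₀ + n₀) ≤ B ^ ((bad g V n x).card + (n₀ + n₀)) :=
            pow_le_pow_right₀ hB1 (by omega)
          gcongr
    · by_cases hx : x ∈ V
      · obtain ⟨m, rfl⟩ := Nat.exists_eq_add_of_le hn
        have h1 := ih m (by omega) (g^[n₀] x)
        have h2 := hV x hx
        rw [it_add']
        refine (ContinuousLinearMap.opNorm_comp_le _ _).trans ?_
        calc ‖iterD E g m (g^[n₀] x)‖ * ‖iterD E g n₀ x‖
            ≤ (B ^ ((bad g V m (g^[n₀] x)).card + (n₀ + n₀)) * Real.exp (c * m)) *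
              Real.exp (c * n₀) := by gcongr
          _ = B ^ ((bad g V m (g^[n₀] x)).card + (n₀ + n₀)) * Real.exp (c * (n₀ + m : ℕ)) := by
              rw [mul_assoc, ← Real.exp_add]
              congr 2
              push_cast
              ring
          _ ≤ _ := by
              have h3 := bad_shift (g := g) (V := V) n₀ m x
              have h4 : B ^ ((bad g V m (g^[n₀] x)).card + (n₀ + n₀)) ≤
                  B ^ ((bad g V (n₀ + m) x).card + (n₀ + n₀)) :=
                pow_le_pow_right₀ hB1 (by omega)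
              gcongr
      · obtain ⟨m, rfl⟩ : ∃ m, n = m + 1 := ⟨n - 1, by omega⟩
        have h1 := ih m (by omega) (g x)
        have h2 := hBc x
        rw [it_succ]
        refine (ContinuousLinearMap.opNorm_comp_le _ _).trans ?_
        calc ‖iterD E g m (g x)‖ * ‖E x‖
            ≤ (B ^ ((bad g V m (g x)).card + (n₀ + n₀)) * Real.exp (c * m)) *
              (B * Real.exp c) := by gcongr
          _ = B ^ ((bad g V m (g x)).card + 1 + (n₀ + n₀)) * Real.exp (c * (m + 1 : ℕ)) := by
              have e1 : Real.exp (c * (m + 1 : ℕ)) = Real.exp (c * m) * Real.exp c := by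
                rw [← Real.exp_add]
                congr 1
                push_cast
                ring
              rw [e1]
              ring
          _ ≤ _ := by
              have h3 := bad_succ (g := g) (V := V) m hx
              have h4 : B ^ ((bad g V m (g x)).card + 1 + (n₀ + n₀)) ≤
                  B ^ ((bad g V (m + 1) x).card + (n₀ + n₀)) :=
                pow_le_pow_right₀ hB1 (by omega)
              gcongr

end Blocks

/-- The growth of the cocycle `E` over `g` on `K` is at most `c`. -/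
def SRate {X : Type u} {Y : Type v} [NormedAddCommGroup Y] [NormedSpace ℝ Y]
    (g : X → X) (E : X → Y →L[ℝ] Y) (c : ℝ) (K : Set X) : Prop :=
  ∀ ε : ℝ, 0 < ε → ∃ C : ℝ, ∀ (n : ℕ), ∀ x ∈ K, ‖iterD E g n x‖ ≤ C * Real.exp ((c + ε) * n)

section Top

variable {X : Type u} [MetricSpace X] [CompactSpace X] {Y : Type v} [NormedAddCommGroup Y]
  [NormedSpace ℝ Y] {E : X → Y →L[ℝ] Y} {g : X → X}

omit [CompactSpace X] in
theorem continuous_iterD (hg : Continuous g) (hE : Continuous E) (n : ℕ) :
    Continuous fun x => iterD E g n x := by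
  induction n with
  | zero => exact continuous_const
  | succ n ih =>
    have h1 : Continuous fun x => iterD E g n (g x) := ih.comp hg
    exact h1.clm_comp hE

/-- The growth on `K` gives the growth along the orbits which spend a bounded time outside a
neighbourhood of `K`. -/
theorem SRate.ext (hg : Continuous g) (hE : Continuous E) {K : Set X} {c : ℝ}
    (h : SRate g E c K) {ε : ℝ} (hε : 0 < ε) :
    ∃ V : Set X, IsOpen V ∧ K ⊆ V ∧ ∀ N : ℕ, ∃ C : ℝ, 0 < C ∧ ∀ (n : ℕ) (x : X),
      (bad g V n x).card ≤ N → ‖iterD E g n x‖ ≤ C * Real.exp ((c + ε) * n) := by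
  obtain ⟨C, hC⟩ := h (ε / 2) (half_pos hε)
  -- the length of the blocks
  obtain ⟨n₀, hn₀⟩ := exists_nat_gt (Real.log (|C| + 1) / (ε / 2))
  have hn₀' : Real.log (|C| + 1) < ε / 2 * n₀ := by
    rw [div_lt_iff₀ (half_pos hε)] at hn₀
    linarith
  have hC1 : |C| + 1 < Real.exp (ε / 2 * n₀) := by
    rwa [← Real.log_lt_iff_lt_exp (by positivity)]
  have hn₀0 : 0 < n₀ := by
    rcases Nat.eq_zero_or_pos n₀ with h0 | h0
    · rw [h0] at hn₀'
      have : 0 ≤ Real.log (|C| + 1) := Real.log_nonneg (by
        have := abs_nonneg C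
        linarith)
      simp only [Nat.cast_zero, mul_zero] at hn₀'
      linarith
    · exact h0
  set V : Set X := {x | ‖iterD E g n₀ x‖ < Real.exp ((c + ε) * n₀)} with hV
  have hVo : IsOpen V := isOpen_lt (continuous_iterD hg hE n₀).norm continuous_const
  have hKV : K ⊆ V := by
    intro x hx
    refine (hC n₀ x hx).trans_lt ?_
    have e1 : Real.exp ((c + ε) * n₀) = Real.exp (ε / 2 * n₀) * Real.exp ((c + ε / 2) * n₀) := by
      rw [← Real.exp_add]
      congr 1
      ring
    rw [e1]
    have h1 : C < Real.exp (ε / 2 * n₀) := by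
      have := le_abs_self C
      linarith
    gcongr
  refine ⟨V, hVo, hKV, fun N => ?_⟩
  obtain ⟨B₀, hB₀⟩ := isCompact_univ.exists_bound_of_continuousOn (f := E) hE.continuousOn
  set B : ℝ := (|B₀| + 1) * Real.exp |c + ε| with hB
  have hexp1 : 1 ≤ Real.exp |c + ε| := Real.one_le_exp (abs_nonneg _)
  have hB1 : 1 ≤ B := by
    have := abs_nonneg B₀
    rw [hB]
    nlinarith
  have hEB : ∀ x, ‖E x‖ ≤ |B₀| + 1 := fun x =>
    (hB₀ x (mem_univ x)).trans ((le_abs_self B₀).trans (by linarith))
  refine ⟨B ^ (N + (n₀ + n₀)), by positivity, fun n x hx => ?_⟩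
  have key := block (E := E) (g := g) (V := V) hn₀0 (c := c + ε) (B := B) hB1
    (fun x => (hEB x).trans (by
      rw [hB]
      have := abs_nonneg B₀
      nlinarith))
    (fun x => (hEB x).trans (by
      rw [hB, mul_assoc, ← Real.exp_add]
      have h1 : 1 ≤ Real.exp (|c + ε| + (c + ε)) := Real.one_le_exp (by
        have := neg_abs_le (c + ε)
        linarith)
      have := abs_nonneg B₀
      nlinarith))
    (fun m hm => by
      have h1 : Real.exp (-((c + ε) * m)) ≤ B ^ n₀ := by
        have h2 : Real.exp (-((c + ε) * m)) ≤ Real.exp (|c + ε| * n₀) := by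
          apply Real.exp_le_exp.2
          have h3 : -((c + ε) * (m : ℝ)) ≤ |c + ε| * m := by
            have := neg_abs_le (c + ε)
            have hm0 : (0 : ℝ) ≤ m := Nat.cast_nonneg m
            nlinarith
          have h4 : (m : ℝ) ≤ n₀ := by exact_mod_cast hm
          have h5 : 0 ≤ |c + ε| := abs_nonneg _
          nlinarith
        refine h2.trans ?_
        rw [hB, mul_pow, ← Real.exp_nat_mul, mul_comm (n₀ : ℝ)]
        have h6 : 1 ≤ (|B₀| + 1) ^ n₀ := one_le_pow₀ (by
          have := abs_nonneg B₀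
          linarith)
        have h7 : 0 < Real.exp (|c + ε| * n₀) := Real.exp_pos _
        nlinarith
      have h2 : B ^ m ≤ B ^ n₀ := pow_le_pow_right₀ hB1 hm
      have h3 : 1 = Real.exp (-((c + ε) * m)) * Real.exp ((c + ε) * m) := by
        rw [← Real.exp_add, neg_add_cancel, Real.exp_zero]
      calc B ^ m = B ^ m * 1 := (mul_one _).symm
        _ = B ^ m * (Real.exp (-((c + ε) * m)) * Real.exp ((c + ε) * m)) := by rw [← h3]
        _ ≤ B ^ n₀ * (B ^ n₀ * Real.exp ((c + ε) * m)) := by gcongr
        _ = _ := by ring)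
    (fun x hx => le_of_lt hx) n x
  refine key.trans ?_
  gcongr

end Top

/-! ### Attractor and repeller -/

section Trap

open N3 TM

variable {X : Type u} [MetricSpace X] [CompactSpace X] {f : X ≃ₜ X} {U V : Set X}

/-- The points of a trapping region come close to the attractor, uniformly. -/
theorem exists_time (h : Trap f U) (hV : IsOpen V) (hAV : Att f U ⊆ V) :
    ∃ N : ℕ, ∀ m, N ≤ m → ∀ x ∈ U, f^[m] x ∈ V := by
  have hK : ∀ n : ℕ, IsCompact (f^[n] '' closure U) := fun n =>
    isClosed_closure.isCompact.image (f.continuous.iterate n)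
  have hmap : ∀ n : ℕ, ∀ x ∈ closure U, f^[n] x ∈ closure U := by
    intro n
    induction n with
    | zero => exact fun x hx => hx
    | succ n ih =>
      intro x hx
      rw [iterate_succ_apply]
      exact ih _ (subset_closure (h.maps x hx))
  have hanti : ∀ n m : ℕ, n ≤ m → f^[m] '' closure U ⊆ f^[n] '' closure U := by
    rintro n m hnm _ ⟨x, hx, rfl⟩
    obtain ⟨k, rfl⟩ := Nat.exists_eq_add_of_le hnm
    exact ⟨f^[k] x, hmap k x hx, by rw [← iterate_add_apply]⟩
  obtain ⟨N, hN⟩ := exists_subset_nhds_of_isCompact' (V := fun n : ℕ => f^[n] '' closure U)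
    (fun n m => ⟨max n m, hanti _ _ (le_max_left _ _), hanti _ _ (le_max_right _ _)⟩) hK
    (fun n => (hK n).isClosed) (U := V) (fun x hx => hV.mem_nhds (hAV fun n => by
      obtain ⟨y, hy, hyx⟩ := mem_iInter.1 hx (n + 1)
      rw [← hyx, ← ev_nat, ← ev_add]
      have e1 : -(n : ℤ) + ((n + 1 : ℕ) : ℤ) = 1 := by
        push_cast
        ring
      rw [e1, ev_one]
      exact h.maps y hy))
  exact ⟨N, fun m hm x hx => hN (hanti N m hm ⟨x, subset_closure hx, rfl⟩)⟩

/-- Orbits in the trapping region. -/
theorem bad_fwd (h : Trap f U) (hV : IsOpen V) (hAV : Att f U ⊆ V) :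
    ∃ N : ℕ, ∀ (n : ℕ), ∀ x ∈ U, (bad f V n x).card ≤ N := by
  obtain ⟨N, hN⟩ := exists_time h hV hAV
  refine ⟨N, fun n x hx => ?_⟩
  have h1 : bad f V n x ⊆ Finset.range N := by
    intro t ht
    have h2 := mem_bad.1 ht
    rw [Finset.mem_range]
    by_contra h3
    exact h2.2 (hN t (by omega) x hx)
  simpa using Finset.card_le_card h1

omit [CompactSpace X] in
theorem iter_symm (n : ℕ) (x : X) : f^[n] (f.symm^[n] x) = x :=
  Function.LeftInverse.iterate (f := ⇑f.symm) (g := ⇑f) f.apply_symm_apply n x

omit [CompactSpace X] in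
theorem iter_cancel {a b : ℕ} (hab : a ≤ b) (x : X) : f^[a] (f.symm^[b] x) = f.symm^[b - a] x := by
  obtain ⟨k, rfl⟩ := Nat.exists_eq_add_of_le hab
  rw [iterate_add_apply, iter_symm, Nat.add_sub_cancel_left]

/-- Backward orbits in the trapping region. -/
theorem bad_bwd (h : Trap f U) (hV : IsOpen V) (hAV : Att f U ⊆ V) :
    ∃ N : ℕ, ∀ (n : ℕ) (x : X), (∀ t < n, f.symm^[t] x ∈ U) → (bad f.symm V n x).card ≤ N := by
  obtain ⟨N, hN⟩ := exists_time h hV hAV
  refine ⟨N, fun n x hx => ?_⟩
  have h1 : bad f.symm V n x ⊆ (Finset.range n \ Finset.range (n - N)) := by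
    intro t ht
    have h2 := mem_bad.1 ht
    rw [Finset.mem_sdiff, Finset.mem_range, Finset.mem_range]
    refine ⟨h2.1, fun h3 => h2.2 ?_⟩
    have h4 := hN N le_rfl (f.symm^[t + N] x) (hx _ (by omega))
    rwa [iter_cancel (by omega), Nat.add_sub_cancel] at h4
  refine (Finset.card_le_card h1).trans ?_
  rw [Finset.card_sdiff_of_subset (Finset.range_mono (Nat.sub_le _ _)), Finset.card_range,
    Finset.card_range]
  omega

omit [CompactSpace X] in
/-- The complement of the closure is a trapping region of the inverse. -/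
theorem trap_symm (h : Trap f U) : Trap f.symm (closure U)ᶜ where
  isOpen := isClosed_closure.isOpen_compl
  maps := by
    intro x hx hcon
    have h1 : x ∈ U := by
      have := h.maps _ hcon
      rwa [Homeomorph.apply_symm_apply] at this
    obtain ⟨y, hy, hy'⟩ := mem_closure_iff.1 hx U h.isOpen h1
    exact hy' (subset_closure hy)

omit [CompactSpace X] in
theorem mem_att {x : X} : x ∈ Att f U ↔ ∀ n : ℕ, f.symm^[n] x ∈ U :=
  forall_congr' fun n => by rw [ev_neg_nat]

omit [CompactSpace X] in
theorem mem_rep {x : X} : x ∈ Rep f U ↔ ∀ n : ℕ, f^[n] x ∉ U :=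
  forall_congr' fun n => by rw [ev_nat]

omit [CompactSpace X] in
/-- The repeller is the attractor of the inverse. -/
theorem att_symm (h : Trap f U) : Att f.symm (closure U)ᶜ = Rep f U := by
  ext x
  rw [mem_att, mem_rep, Homeomorph.symm_symm]
  refine ⟨fun hx n hn => hx n (subset_closure hn), fun hx n hn => hx (n + 1) ?_⟩
  rw [iterate_succ_apply']
  exact h.maps _ hn

omit [CompactSpace X] in
theorem rep_symm (h : Trap f U) : Rep f.symm (closure U)ᶜ = Att f U := by
  ext x
  rw [mem_att, mem_rep]
  constructor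
  · intro hx n
    have h1 : f.symm^[n + 1] x ∈ closure U := not_not.1 (hx (n + 1))
    have h2 := h.maps _ h1
    rwa [iterate_succ_apply', Homeomorph.apply_symm_apply] at h2
  · intro hx n hn
    exact hn (subset_closure (hx n))

/-- All orbits. -/
theorem bad_all (h : Trap f U) (hV : IsOpen V) (hAV : Att f U ∪ Rep f U ⊆ V) :
    ∃ N : ℕ, ∀ (n : ℕ) (x : X), (bad f V n x).card ≤ N := by
  classical
  obtain ⟨N, hN⟩ := exists_time h hV (subset_union_left.trans hAV)
  obtain ⟨N', hN'⟩ := exists_time (trap_symm h) hV (by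
    rw [att_symm h]
    exact subset_union_right.trans hAV)
  refine ⟨N + N' + 1, fun n x => ?_⟩
  by_cases hx : ∃ T, f^[T] x ∈ U
  · set T := Nat.find hx with hT
    have hTU : f^[T] x ∈ U := Nat.find_spec hx
    have hmin : ∀ t < T, f^[t] x ∉ U := fun t ht => Nat.find_min hx ht
    have h1 : bad f V n x ⊆ (Finset.range (T + N) \ Finset.range (T - 1 - N')) := by
      intro t ht
      have h2 := mem_bad.1 ht
      rw [Finset.mem_sdiff, Finset.mem_range, Finset.mem_range]
      constructor
      · by_contra h3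
        push Not at h3
        obtain ⟨k, rfl⟩ := Nat.exists_eq_add_of_le h3
        refine h2.2 ?_
        have h4 := hN (N + k) (Nat.le_add_right _ _) (f^[T] x) hTU
        rwa [← iterate_add_apply, show N + k + T = T + N + k by ring] at h4
      · intro h3
        refine h2.2 ?_
        -- `f^(T-2) x` is not in the closure of `U`
        have h5 : f^[T - 2] x ∈ (closure U)ᶜ := by
          intro h6
          have h7 := h.maps _ h6
          rw [← iterate_succ_apply' (⇑f), show (T - 2).succ = T - 1 by omega] at h7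
          exact hmin _ (by omega) h7
        obtain ⟨k, hk⟩ : ∃ k, T - 2 = t + k := ⟨T - 2 - t, by omega⟩
        have h6 := hN' k (by omega) _ h5
        rw [hk, add_comm t k, iterate_add_apply] at h6
        have h7 : f.symm^[k] (f^[k] (f^[t] x)) = f^[t] x :=
          Function.LeftInverse.iterate (f := ⇑f) (g := ⇑f.symm) f.symm_apply_apply k _
        rwa [h7] at h6
    refine (Finset.card_le_card h1).trans ?_
    rw [Finset.card_sdiff_of_subset (Finset.range_mono (by omega)), Finset.card_range,
      Finset.card_range]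
    omega
  · push Not at hx
    have h1 : bad f V n x = ∅ := by
      rw [Finset.eq_empty_iff_forall_notMem]
      intro t ht
      have h2 := mem_bad.1 ht
      refine h2.2 (hAV (Or.inr (mem_rep.2 fun k => ?_)))
      rw [← iterate_add_apply]
      exact hx _
    rw [h1, Finset.card_empty]
    omega

end Trap

end Pool.Agent.Lib.MP610fe3.AP
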