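import Pool.Agent.Lib.MP_610fe3_an.AC.Statement
import Mathlib.Dynamics.TopologicalEntropy.CoverEntropy

/-!
# Rates of an Anosov diffeomorphism at an attractor and its dual repeller: definitions
-/

open Set Filter Function Bundle
open scoped Manifold ContDiff Topology

namespace Pool.Agent.Lib.MP610fe3.AP

section Defs

variable {V : Type*} [NormedAddCommGroup V] [NormedSpace ℝ V]
  {M : Type*} [TopologicalSpace M] [ChartedSpace V M]
  [RiemannianBundle (fun x : M => TangentSpace 𝓘(ℝ, V) x)]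

/-- The attractor of the attracting region `U`: the points whose backward orbit is in `U`. -/
def Att (f : M ≃ₘ^1⟮𝓘(ℝ, V), 𝓘(ℝ, V)⟯ M) (U : Set M) : Set M := {x | ∀ k : ℕ, f.symm^[k] x ∈ U}

/-- The dual repeller: the points whose forward orbit does not meet `U`. -/
def Rep (f : M ≃ₘ^1⟮𝓘(ℝ, V), 𝓘(ℝ, V)⟯ M) (U : Set M) : Set M := {x | ∀ k : ℕ, f^[k] x ∉ U}

/-- The exponential growth of the derivatives of the iterates of `g` on `F`, over `X`, is at most
`c`, uniformly. -/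
def UniRate (g : M → M) (F : ∀ x : M, Submodule ℝ (TangentSpace 𝓘(ℝ, V) x)) (c : ℝ)
    (X : Set M) : Prop :=
  ∀ ε : ℝ, 0 < ε → ∃ C : ℝ, ∀ (n : ℕ), ∀ x ∈ X, ∀ v ∈ F x,
    ‖mfderiv 𝓘(ℝ, V) 𝓘(ℝ, V) (g^[n]) x v‖ ≤ C * Real.exp ((c + ε) * n) * ‖v‖

/-- The Lyapunov exponents of `g` on `F` at the periodic points in `X` are at most `c`: here the
constant may depend on the periodic point. -/
def PerRate (g : M → M) (F : ∀ x : M, Submodule ℝ (TangentSpace 𝓘(ℝ, V) x)) (c : ℝ)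
    (X : Set M) : Prop :=
  ∀ p ∈ X, p ∈ periodicPts g → AC.GrowthAt g F c p

/-- The rate of `g` (`g = f` or `g = f⁻¹`) on `F` over `X` is at most `c`: uniformly, or `f` is a
`C^2` diffeomorphism and this is so at the periodic points in `X`. -/
def Rate (f : M ≃ₘ^1⟮𝓘(ℝ, V), 𝓘(ℝ, V)⟯ M) (g : M → M)
    (F : ∀ x : M, Submodule ℝ (TangentSpace 𝓘(ℝ, V) x)) (c : ℝ) (X : Set M) : Prop :=
  UniRate g F c X ∨ (ContMDiff 𝓘(ℝ, V) 𝓘(ℝ, V) 2 f ∧ ContMDiff 𝓘(ℝ, V) 𝓘(ℝ, V) 2 f.symm ∧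
    PerRate g F c X)

end Defs

section Main

variable {V : Type*} [NormedAddCommGroup V] [NormedSpace ℝ V]
  {M : Type*} [UniformSpace M] [ChartedSpace V M]
  [RiemannianBundle (fun x : M => TangentSpace 𝓘(ℝ, V) x)]

/-- Bounds for the attractor `A` and the repeller `R` of the region `U`, where `ds`, `du` are the
dimensions of `Es`, `Eu`: over `A ∪ R` the stable rates are at least `s` and the unstable rates are
at least `u`; over `A` the unstable rates are at least `a`, and at most `b` or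
`h_top (f, closure U) ≤ b + (du - 1) a`; over `R` the stable rates are at least `a'`, and at most
`b'` or `h_top (f⁻¹, M \ U) ≤ b' + (ds - 1) a'`. -/
structure Bounds (f : M ≃ₘ^1⟮𝓘(ℝ, V), 𝓘(ℝ, V)⟯ M)
    (Es Eu : ∀ x : M, Submodule ℝ (TangentSpace 𝓘(ℝ, V) x)) (ds du : ℕ) (U : Set M)
    (s u a b a' b' : ℝ) : Prop where
  s_all : Rate f f Es (-s) (Att f U ∪ Rep f U)
  u_all : Rate f f.symm Eu (-u) (Att f U ∪ Rep f U)
  u_low : Rate f f.symm Eu (-a) (Att f U)
  u_up : Rate f f Eu b (Att f U) ∨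
    Dynamics.coverEntropy f (closure U) ≤ ((b + (du - 1) * a : ℝ) : EReal)
  s_low : Rate f f Es (-a') (Rep f U)
  s_up : Rate f f.symm Es b' (Rep f U) ∨
    Dynamics.coverEntropy f.symm Uᶜ ≤ ((b' + (ds - 1) * a' : ℝ) : EReal)

end Main

universe u v

/-- The main theorem: for every proper attracting region `U`, with attractor `A` and repeller `R`,
the bounds satisfy `u s ≤ (b - a) (b' - s)` and `u s ≤ (b - u) (b' - a')`; and if `f` is not
transitive then there is such a region. -/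
def SpecMain : Prop :=
  ∀ {V : Type u} [NormedAddCommGroup V] [NormedSpace ℝ V] [FiniteDimensional ℝ V]
    {M : Type v} [UniformSpace M] [CompactSpace M] [T2Space M] [ConnectedSpace M]
    [ChartedSpace V M] [IsManifold 𝓘(ℝ, V) ∞ M]
    [RiemannianBundle (fun x : M => TangentSpace 𝓘(ℝ, V) x)]
    [IsContinuousRiemannianBundle V (fun x : M => TangentSpace 𝓘(ℝ, V) x)]
    (f : M ≃ₘ^1⟮𝓘(ℝ, V), 𝓘(ℝ, V)⟯ M)
    (Es Eu : ∀ x : M, Submodule ℝ (TangentSpace 𝓘(ℝ, V) x)), Gen.IsAnosovSplitting f Es Eu →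
    ∀ ds du : ℕ, (∀ x, Module.finrank ℝ (Es x) = ds) → (∀ x, Module.finrank ℝ (Eu x) = du) →
    (∀ U : Set M, AC.ProperAttracting f U → ∀ s u a b a' b' : ℝ, 0 < s → s ≤ a' → 0 < u → u ≤ a →
      Bounds f Es Eu ds du U s u a b a' b' →
      u * s ≤ (b - a) * (b' - s) ∧ u * s ≤ (b - u) * (b' - a')) ∧
    (¬ TopTransitive f → ∃ U : Set M, AC.ProperAttracting f U)

end Pool.Agent.Lib.MP610fe3.AP
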