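import Pool.Agent.Lib.MP_610fe3_an.AP.Per
import Pool.Agent.Lib.MP_610fe3_an.AP.Statement
import Pool.Agent.Lib.MP_610fe3_an.PR.PER

/-!
# Rates of an Anosov diffeomorphism at an attractor and its dual repeller: the theorem
-/

open Set Filter Function Bundle
open scoped Manifold ContDiff Topology

namespace Pool.Agent.Lib.MP610fe3.AP

open Gen Cf.Mfd PR PR.PER H6

universe u v

section Dictionary

variable {V : Type*} [NormedAddCommGroup V] [NormedSpace ℝ V] {N : ℕ}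
  {M : Type v} [MetricSpace M] [CompactSpace M] [ChartedSpace V M]
  [RiemannianBundle (fun x : M => TangentSpace 𝓘(ℝ, V) x)]

/-- From the rate on the tangent bundle to the growth in the ambient space. -/
theorem rate_of (hKal : SpecKal.{v, 0}) {E : Emb M (EuclideanSpace ℝ (Fin N))} {h : M ≃ₜ M}
    {S : Split E h} (hS : S.Hyperbolic)
    {Q : M → EuclideanSpace ℝ (Fin N) →L[ℝ] EuclideanSpace ℝ (Fin N)}
    {F : ∀ x : M, Submodule ℝ (TangentSpace 𝓘(ℝ, V) x)} {c₀ C₁ K : ℝ}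
    (hc₀ : 0 < c₀) (hC₁ : 0 < C₁)
    (hn : ∀ x (v : TangentSpace 𝓘(ℝ, V) x), c₀ * ‖v‖ ≤ ‖dE V E.e x v‖ ∧
      ‖dE V E.e x v‖ ≤ C₁ * ‖v‖)
    (hit : ∀ (k : ℕ) x (v : TangentSpace 𝓘(ℝ, V) x), iterD S.D h k x (dE V E.e x v) =
      dE V E.e (h^[k] x) (mfderiv 𝓘(ℝ, V) 𝓘(ℝ, V) (h^[k]) x v))
    (hm1 : ∀ x w, ∃ v ∈ F x, dE V E.e x v = Q x w) (hK : ∀ x, ‖Q x‖ ≤ K)
    (hQQ : ∀ x, Q x ∘L Q x = Q x) (hDQ : ∀ x, S.D x ∘L Q x = Q (h x) ∘L S.D x)
    {X : Set M} (hX : Good h X) {P : Prop}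
    (hH : P → ∃ B β : ℝ, 0 < β ∧ β ≤ 1 ∧ (∀ x y, ‖S.D x - S.D y‖ ≤ B * dist x y ^ β) ∧
      (∀ x y, ‖Q x - Q y‖ ≤ B * dist x y ^ β)) {c : ℝ}
    (hR : UniRate (⇑h) F c X ∨ (P ∧ PerRate (⇑h) F c X)) :
    SRate (⇑h) (cp S.D Q) c X := by
  rcases hR with hR | ⟨hP, hR⟩
  · intro ε hε
    obtain ⟨C, hC⟩ := hR ε hε
    refine ⟨max |C₁ * |C| * (1 / c₀) * K| 1, fun n x hx => ?_⟩
    rcases eq_or_ne n 0 with rfl | hn0
    · have h1 : ‖iterD (cp S.D Q) (⇑h) 0 x‖ ≤ 1 := by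
        simpa [iterD] using ContinuousLinearMap.norm_id_le
      simpa using h1.trans (le_max_right |C₁ * |C| * (1 / c₀) * K| 1)
    · refine cp_norm_le hQQ hDQ (by positivity) (fun w => ?_) hn0
      refine (to_amb hc₀ hC₁ hn hit hm1 hK (fun n v hv => hC n x hx v hv) n w).trans ?_
      have h2 : C₁ * |C| * (1 / c₀) * K ≤ max |C₁ * |C| * (1 / c₀) * K| 1 :=
        (le_abs_self _).trans (le_max_left _ _)
      gcongr
  · obtain ⟨B, β, hβ, hβ1, hD, hQ⟩ := hH hP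
    refine ratOn hKal S hS hX hQQ hDQ hK hβ hβ1 hD hQ fun p hp q hq hpq ε hε => ?_
    obtain ⟨C, hC⟩ := hR p hp ⟨q, hq, hpq⟩ ε hε
    exact ⟨_, fun n w => to_amb hc₀ hC₁ hn hit hm1 hK (fun n v hv => hC n v hv) n w⟩

end Dictionary

section Metric

variable {V : Type u} [NormedAddCommGroup V] [NormedSpace ℝ V] [FiniteDimensional ℝ V] {N : ℕ}
  {M : Type v} [MetricSpace M] [CompactSpace M]
  [ChartedSpace V M] [IsManifold 𝓘(ℝ, V) ∞ M]
  [RiemannianBundle (fun x : M => TangentSpace 𝓘(ℝ, V) x)]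
  [IsContinuousRiemannianBundle V (fun x : M => TangentSpace 𝓘(ℝ, V) x)]

omit [RiemannianBundle (fun x : M => TangentSpace 𝓘(ℝ, V) x)]
  [IsContinuousRiemannianBundle V (fun x : M => TangentSpace 𝓘(ℝ, V) x)] in
/-- For `C^2` diffeomorphisms everything is Hölder continuous. -/
theorem holder_data (hHol : SpecHol.{v, 0}) (E : Emb M (EuclideanSpace ℝ (Fin N)))
    (he : ContMDiff 𝓘(ℝ, V) (𝓡 N) ∞ E.e)
    (hinj : ∀ x, Injective (mfderiv 𝓘(ℝ, V) (𝓡 N) E.e x))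
    (hEP : ∀ x, E.P x = Gen.KF V E.e E.e x)
    (f : M ≃ₘ^1⟮𝓘(ℝ, V), 𝓘(ℝ, V)⟯ M) (hf : ContMDiff 𝓘(ℝ, V) 𝓘(ℝ, V) 2 f)
    (hfs : ContMDiff 𝓘(ℝ, V) 𝓘(ℝ, V) 2 f.symm) (S : Split E f.toHomeomorph)
    (hS : S.Hyperbolic) :
    ∃ B β : ℝ, 0 < β ∧ β ≤ 1 ∧ (∀ x y, ‖S.D x - S.D y‖ ≤ B * dist x y ^ β) ∧
      (∀ x y, ‖S.Di x - S.Di y‖ ≤ B * dist x y ^ β) ∧
      (∀ x y, ‖S.S x - S.S y‖ ≤ B * dist x y ^ β) ∧
      (∀ x y, ‖S.U x - S.U y‖ ≤ B * dist x y ^ β) := by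
  have hinj' : ∀ x, Injective (dF V E.e x) := hinj
  have he2 : ContMDiff 𝓘(ℝ, V) (𝓡 N) 2 E.e := he.of_le two_le_infty
  obtain ⟨C₂, hSq⟩ := Cf.specSq V N M E he hinj hEP f.toHomeomorph hf hfs S
  obtain ⟨L₁, r₁, hL₁, hr₁, hl₁⟩ := S.hD.exists_lip
  obtain ⟨L₂, r₂, hL₂, hr₂, hl₂⟩ := S.hDi.exists_lip
  obtain ⟨L₃, hL₃, hlip₁⟩ := T6.MainB.lip_of_local (f := f) (by linarith : (0 : ℝ) ≤ L₁) hr₁ hl₁
  obtain ⟨L₄, hL₄, hlip₂⟩ := T6.MainB.lip_of_local (f := f.symm) (by linarith : (0 : ℝ) ≤ L₂)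
    hr₂ hl₂
  obtain ⟨C₃, hC₃⟩ := lip_KF he2 he2 E.isom hinj'
  set L : ℝ := max (max L₃ L₄) (max |C₂| |C₃|) with hL
  have hL0 : 0 ≤ L := hL₃.trans ((le_max_left _ _).trans (le_max_left _ _))
  have hLD : ∀ x y, ‖S.D x - S.D y‖ ≤ L * dist x y := fun x y => by
    refine (hSq.lipD y x).trans ?_
    gcongr
    exact (le_abs_self _).trans ((le_max_left _ _).trans (le_max_right _ _))
  have hLDi : ∀ x y, ‖S.Di x - S.Di y‖ ≤ L * dist x y := fun x y => by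
    refine (hSq.lipDi y x).trans ?_
    gcongr
    exact (le_abs_self _).trans ((le_max_left _ _).trans (le_max_right _ _))
  have hLP : ∀ x y, ‖E.P x - E.P y‖ ≤ L * dist x y := fun x y => by
    rw [hEP x, hEP y]
    refine (hC₃ y x).trans ?_
    gcongr
    exact (le_abs_self _).trans ((le_max_right _ _).trans (le_max_right _ _))
  have hLf : ∀ x y, dist (f.toHomeomorph x) (f.toHomeomorph y) ≤ L * dist x y := fun x y => by
    refine (hlip₁ x y).trans ?_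
    gcongr
    exact (le_max_left _ _).trans (le_max_left _ _)
  have hLfs : ∀ x y, dist (f.toHomeomorph.symm x) (f.toHomeomorph.symm y) ≤ L * dist x y :=
    fun x y => by
      refine (hlip₂ x y).trans ?_
      gcongr
      exact (le_max_right _ _).trans (le_max_left _ _)
  obtain ⟨C₄, β, hβ, hβ1, hC₄, hHl⟩ := hHol S hS L hLD hLDi hLP hLf hLfs
  obtain ⟨K₀, hK₀, hdist⟩ := dist_le_rpow (M := M) hβ hβ1
  set B : ℝ := max (max C₄ L) (L * K₀) with hB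
  have hup : ∀ {t : ℝ} {x y : M}, t ≤ L * dist x y → t ≤ B * dist x y ^ β := by
    intro t x y h
    have h0 : 0 ≤ dist x y ^ β := by positivity
    calc t ≤ L * dist x y := h
      _ ≤ L * (K₀ * dist x y ^ β) := by
          have := hdist x y
          gcongr
      _ = L * K₀ * dist x y ^ β := by ring
      _ ≤ B * dist x y ^ β := by
          gcongr
          exact le_max_right _ _
  refine ⟨B, β, hβ, hβ1, fun x y => hup (hLD x y), fun x y => hup (hLDi x y), fun x y => ?_,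
    fun x y => ?_⟩
  · refine (hHl x y).1.trans ?_
    have h0 : 0 ≤ dist x y ^ β := by positivity
    gcongr
    exact (le_max_left _ _).trans (le_max_left _ _)
  · refine (hHl x y).2.trans ?_
    have h0 : 0 ≤ dist x y ^ β := by positivity
    gcongr
    exact (le_max_left _ _).trans (le_max_left _ _)

/-- The theorem, with the metric of an embedding. -/
theorem main_metric [ConnectedSpace M] (hHol : SpecHol.{v, 0}) (hKal : SpecKal.{v, 0})
    (e : M → EuclideanSpace ℝ (Fin N)) (hiso : Isometry e)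
    (he : ContMDiff 𝓘(ℝ, V) (𝓡 N) ∞ e)
    (hinj : ∀ x, Injective (mfderiv 𝓘(ℝ, V) (𝓡 N) e x))
    (f : M ≃ₘ^1⟮𝓘(ℝ, V), 𝓘(ℝ, V)⟯ M)
    (Es Eu : ∀ x : M, Submodule ℝ (TangentSpace 𝓘(ℝ, V) x))
    (hA : Gen.IsAnosovSplitting f Es Eu) {ds du : ℕ}
    (hds : ∀ x, Module.finrank ℝ (Es x) = ds) (hdu : ∀ x, Module.finrank ℝ (Eu x) = du)
    {U : Set M} (hU : AC.ProperAttracting f U) {s u a b a' b' : ℝ} (hs : 0 < s) (hsa : s ≤ a')
    (hu : 0 < u) (hua : u ≤ a) (hB : Bounds f Es Eu ds du U s u a b a' b') :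
    u * s ≤ (b - a) * (b' - s) ∧ u * s ≤ (b - u) * (b' - a') := by
  obtain ⟨E, hE, hEP, hr⟩ := Gen.exists_emb e hiso he hinj
  subst hE
  obtain ⟨S, hS, hSs, hSu⟩ := Gen.exists_split E he hinj hr f Es Eu hA
  have hinj' : ∀ x, Injective (dF V E.e x) := hinj
  obtain ⟨K, hK1, hK⟩ := S.exists_bdd
  obtain ⟨c₀, C₁, hc₀, hC₁, hn⟩ := exists_norm_bounds E.e he hinj
  have hn' : ∀ x (v : TangentSpace 𝓘(ℝ, V) x), c₀ * ‖v‖ ≤ ‖dE V E.e x v‖ ∧
      ‖dE V E.e x v‖ ≤ C₁ * ‖v‖ := by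
    intro x v
    have h1 := hn x v
    rw [norm_tangentSpace_vectorSpace] at h1
    exact h1
  have he1 : ContMDiff 𝓘(ℝ, V) (𝓡 N) 1 E.e := he.of_le (by exact_mod_cast le_top)
  have hit : ∀ {h : M → M}, ContMDiff 𝓘(ℝ, V) 𝓘(ℝ, V) 1 h →
      ∀ {D : M → EuclideanSpace ℝ (Fin N) →L[ℝ] EuclideanSpace ℝ (Fin N)}, HasD E h D →
      ∀ (k : ℕ) x (v : TangentSpace 𝓘(ℝ, V) x), iterD D h k x (dE V E.e x v) =
        dE V E.e (h^[k] x) (mfderiv 𝓘(ℝ, V) 𝓘(ℝ, V) (h^[k]) x v) := by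
    intro h hh D hD k x v
    refine iterD_dE he hh (fun x u => ?_) k x v
    have h3 := mfderiv_comp (I := 𝓘(ℝ, V)) (I' := 𝓘(ℝ, V)) (I'' := 𝓡 N) (f := h) x
      (he1.mdifferentiable (by norm_num) (h x)) (hh.mdifferentiable (by norm_num) x)
    rw [HasD_eq_KF E he hinj hEP hh hD x]
    refine (KF_apply hinj' x u).trans ?_
    unfold dF
    rw [h3]
    rfl
  have hm1 : ∀ {Q : M → EuclideanSpace ℝ (Fin N) →L[ℝ] EuclideanSpace ℝ (Fin N)}
      {F : ∀ x : M, Submodule ℝ (TangentSpace 𝓘(ℝ, V) x)},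
      (∀ x, (Q x).range = (F x).map (mfderiv 𝓘(ℝ, V) (𝓡 N) E.e x).toLinearMap) →
      ∀ x w, ∃ v ∈ F x, dE V E.e x v = Q x w := by
    intro Q F hF x w
    have h1 : Q x w ∈ (Q x).range := ⟨w, rfl⟩
    rw [hF x] at h1
    obtain ⟨v', hv', hvv'⟩ := h1
    exact ⟨v', hv', hvv'⟩
  obtain ⟨hUo, hUne, hUuniv, hUt⟩ := hU
  have hT : N3.Trap f.toHomeomorph U := ⟨hUo, fun x hx => hUt ⟨x, hx, rfl⟩⟩
  have eA : Att f U = N3.Att f.toHomeomorph U := by
    ext x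
    rw [mem_att]
    rfl
  have eR : Rep f U = N3.Rep f.toHomeomorph U := by
    ext x
    rw [mem_rep]
    rfl
  have hd := fun (h : ContMDiff 𝓘(ℝ, V) 𝓘(ℝ, V) 2 f ∧ ContMDiff 𝓘(ℝ, V) 𝓘(ℝ, V) 2 f.symm) =>
    holder_data hHol E he hinj hEP f h.1 h.2 S hS
  -- the four kinds of rates
  have rfs : ∀ {X : Set M} {c : ℝ}, Good f.toHomeomorph X → Rate f f Es c X →
      SRate (⇑f.toHomeomorph) (cp S.D S.S) c X := fun {X c} hX h =>
    rate_of (P := ContMDiff 𝓘(ℝ, V) 𝓘(ℝ, V) 2 f ∧ ContMDiff 𝓘(ℝ, V) 𝓘(ℝ, V) 2 f.symm)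
      hKal hS hc₀ hC₁ hn' (hit f.contMDiff S.hD) (hm1 hSs) (fun x => (hK x).1) S.SS S.DS
      hX (fun hP => by
        obtain ⟨B, β, h1, h2, h3, h4, h5, h6⟩ := hd hP
        exact ⟨B, β, h1, h2, h3, h5⟩) (h.imp id fun h => ⟨⟨h.1, h.2.1⟩, h.2.2⟩)
  have rfu : ∀ {X : Set M} {c : ℝ}, Good f.toHomeomorph X → Rate f f Eu c X →
      SRate (⇑f.toHomeomorph) (cp S.D S.U) c X := fun {X c} hX h =>
    rate_of (P := ContMDiff 𝓘(ℝ, V) 𝓘(ℝ, V) 2 f ∧ ContMDiff 𝓘(ℝ, V) 𝓘(ℝ, V) 2 f.symm)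
      hKal hS hc₀ hC₁ hn' (hit f.contMDiff S.hD) (hm1 hSu) (fun x => (hK x).2) S.UU S.DU
      hX (fun hP => by
        obtain ⟨B, β, h1, h2, h3, h4, h5, h6⟩ := hd hP
        exact ⟨B, β, h1, h2, h3, h6⟩) (h.imp id fun h => ⟨⟨h.1, h.2.1⟩, h.2.2⟩)
  have rbs : ∀ {X : Set M} {c : ℝ}, Good f.toHomeomorph.symm X → Rate f f.symm Es c X →
      SRate (⇑f.toHomeomorph.symm) (cp S.Di S.S) c X := fun {X c} hX h =>
    rate_of (P := ContMDiff 𝓘(ℝ, V) 𝓘(ℝ, V) 2 f ∧ ContMDiff 𝓘(ℝ, V) 𝓘(ℝ, V) 2 f.symm)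
      hKal (S := S.swap) hS.swap hc₀ hC₁ hn' (hit f.symm.contMDiff S.hDi) (hm1 hSs)
      (fun x => (hK x).1) S.SS S.swap.DU
      hX (fun hP => by
        obtain ⟨B, β, h1, h2, h3, h4, h5, h6⟩ := hd hP
        exact ⟨B, β, h1, h2, h4, h5⟩) (h.imp id fun h => ⟨⟨h.1, h.2.1⟩, h.2.2⟩)
  have rbu : ∀ {X : Set M} {c : ℝ}, Good f.toHomeomorph.symm X → Rate f f.symm Eu c X →
      SRate (⇑f.toHomeomorph.symm) (cp S.Di S.U) c X := fun {X c} hX h =>
    rate_of (P := ContMDiff 𝓘(ℝ, V) 𝓘(ℝ, V) 2 f ∧ ContMDiff 𝓘(ℝ, V) 𝓘(ℝ, V) 2 f.symm)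
      hKal (S := S.swap) hS.swap hc₀ hC₁ hn' (hit f.symm.contMDiff S.hDi) (hm1 hSu)
      (fun x => (hK x).2) S.UU S.swap.DS
      hX (fun hP => by
        obtain ⟨B, β, h1, h2, h3, h4, h5, h6⟩ := hd hP
        exact ⟨B, β, h1, h2, h4, h6⟩) (h.imp id fun h => ⟨⟨h.1, h.2.1⟩, h.2.2⟩)
  have hSB : SBounds S ds du (N3.Att f.toHomeomorph U) (N3.Rep f.toHomeomorph U) (closure U) Uᶜ
      s u a b a' b' := by
    have h1 := hB.s_all
    have h2 := hB.u_all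
    have h3 := hB.u_low
    have h4 := hB.u_up
    have h5 := hB.s_low
    have h6 := hB.s_up
    rw [eA, eR] at h1 h2
    rw [eA] at h3 h4
    rw [eR] at h5 h6
    refine ⟨rfs (good_union hT) h1, rbu (good_union' hT) h2, rbu (good_att' hT) h3,
      h4.imp (rfu (good_att hT)) fun h7 h hh => ?_, rfs (good_rep hT) h5,
      h6.imp (rbs (good_rep' hT)) fun h7 h hh => ?_⟩
    · exact specEntOn M f.toHomeomorph f.toHomeomorph.continuous (closure U) isClosed_closure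
        (fun x hx => subset_closure (hT.maps x hx)) h (h7.trans_lt (by exact_mod_cast hh))
    · have h8 : MapsTo f.toHomeomorph.symm Uᶜ Uᶜ := by
        intro x hx hcon
        refine hx ?_
        have h9 := hT.maps _ (subset_closure hcon)
        rwa [Homeomorph.apply_symm_apply] at h9
      exact specEntOn M f.toHomeomorph.symm f.toHomeomorph.symm.continuous Uᶜ hUo.isClosed_compl
        h8 h (h7.trans_lt (by exact_mod_cast hh))
  have hne' : ((closure U)ᶜ).Nonempty := by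
    rw [nonempty_compl]
    intro h1
    refine hUuniv (eq_univ_of_univ_subset fun x _ => hUt ⟨f.symm x, ?_, ?_⟩)
    · rw [h1]
      trivial
    · exact f.apply_symm_apply x
  have huniv' : (closure U)ᶜ ≠ univ := by
    intro h1
    obtain ⟨x, hx⟩ := hUne
    have h2 : x ∈ (closure U)ᶜ := h1 ▸ mem_univ x
    exact h2 (subset_closure hx)
  exact pair S hS (finrank_range_eq E hinj hSs hds) (finrank_range_eq E hinj hSu hdu) hT
    (frontier_nonempty_of_trap hUne hUuniv) (frontier_nonempty_of_trap hne' huniv') subset_rfl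
    (closure_minimal (compl_subset_compl.2 subset_closure) hUo.isClosed_compl) hs hsa hu hua hSB

/-- If `f` is not transitive then there is a proper attracting region. -/
theorem exists_region (e : M → EuclideanSpace ℝ (Fin N)) (hiso : Isometry e)
    (he : ContMDiff 𝓘(ℝ, V) (𝓡 N) ∞ e)
    (hinj : ∀ x, Injective (mfderiv 𝓘(ℝ, V) (𝓡 N) e x))
    (f : M ≃ₘ^1⟮𝓘(ℝ, V), 𝓘(ℝ, V)⟯ M)
    (Es Eu : ∀ x : M, Submodule ℝ (TangentSpace 𝓘(ℝ, V) x))
    (hA : Gen.IsAnosovSplitting f Es Eu) (hf : ¬ TopTransitive f) :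
    ∃ U : Set M, AC.ProperAttracting f U := by
  obtain ⟨E, hE, hEP, hr⟩ := Gen.exists_emb e hiso he hinj
  subst hE
  obtain ⟨S, hS, -, -⟩ := Gen.exists_split E he hinj hr f Es Eu hA
  by_contra hno
  refine hf (topTransitive_of_shadowing (S.shadowing hS) ?_)
  by_contra hct
  obtain ⟨U, hU, hne, huniv⟩ := Cf.H1.exists_trap hct
  exact hno ⟨U, hU.1, hne, huniv, hU.2.image_subset⟩

end Metric

/-- An embedding of a compact uniform space is a uniform embedding. -/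
theorem isUniformEmbedding_of_compact {X Y : Type*} [u : UniformSpace X] [CompactSpace X]
    [UniformSpace Y] {e : X → Y} (he : Topology.IsEmbedding e) :
    IsUniformEmbedding e := by
  refine ⟨⟨?_⟩, he.injective⟩
  have h : UniformSpace.comap e inferInstance = u :=
    unique_uniformity_of_compact (t := u.toTopologicalSpace) he.eq_induced.symm rfl
  rw [← h]
  rfl

/-- **The theorem on attractor repeller pairs.** -/
theorem specMain_of (hHol : SpecHol.{v, 0}) (hKal : SpecKal.{v, 0}) : SpecMain.{u, v} := by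
  intro V _ _ _ M _ _ _ _ _ _ _ _ f Es Eu hA ds du hds hdu
  obtain ⟨N, e, he, hemb, hinj⟩ := exists_embedding_euclidean_of_compact (I := 𝓘(ℝ, V)) (M := M)
  have hue : IsUniformEmbedding e := isUniformEmbedding_of_compact hemb.isEmbedding
  let _ : MetricSpace M := hue.comapMetricSpace e
  have hiso : Isometry e := Isometry.of_dist_eq fun x y => rfl
  exact ⟨fun U hU s u a b a' b' hs hsa hu hua hB =>
    main_metric hHol hKal e hiso he hinj f Es Eu hA hds hdu hU hs hsa hu hua hB,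
    exists_region e hiso he hinj f Es Eu hA⟩

end Pool.Agent.Lib.MP610fe3.AP
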