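import Pool.Agent.Lib.MP_610fe3_an.AP.Split

/-!
# The growth over an attractor or repeller, from the periodic points
-/

open Set Filter Function
open scoped Topology

namespace Pool.Agent.Lib.MP610fe3.AP

open N3 TM H6 PR
open Cf hiding Att Trap

universe u v

section PerLoc

variable {M : Type u} [MetricSpace M] {f : M ≃ₜ M} {U : Set M}

/-- Periodic points outside `U` are in the repeller. -/
theorem per_rep (h : Trap f U) {p : M} {n : ℕ} (hn : 0 < n) (hp : f^[n] p = p) (hpU : p ∉ U) :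
    p ∈ Rep f U := by
  rw [mem_rep]
  intro k hk
  have h1 : ∀ j : ℕ, f^[n * j] p = p := fun j => by
    rw [iterate_mul]
    exact (show IsFixedPt (f^[n]) p from hp).iterate j
  obtain ⟨m, hm⟩ : ∃ m : ℕ, n * k = m + k := ⟨n * k - k, by
    have := Nat.mul_le_mul_right k (Nat.one_le_iff_ne_zero.2 hn.ne')
    omega⟩
  have h2 := h.fwd hk m
  rw [ev_nat, ← iterate_add_apply, ← hm, h1] at h2
  exact hpU h2

theorem PerLoc.mono {A : Set M} {c c' : ℝ} (h : PerLoc f A c) (hc : c' ≤ c) : PerLoc f A c' :=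
  fun p n hn hp hk => h p n hn hp fun k hkn => by
    obtain ⟨a, ha, had⟩ := hk k hkn
    exact ⟨a, ha, had.trans hc⟩

theorem rep_closed (h : Trap f U) : IsClosed (Rep f U) := by
  rw [← att_symm h]
  exact att_closed (trap_symm h)

theorem rep_inv (h : Trap f U) (x : M) : f x ∈ Rep f U ↔ x ∈ Rep f U := by
  have h1 := att_inv (trap_symm h) (f x)
  rw [att_symm h, Homeomorph.symm_apply_apply] at h1
  exact h1.symm

theorem union_perLoc (h : Trap f U) (c : ℝ) : PerLoc f (Att f U ∪ Rep f U) c := by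
  intro p n hn hp _
  by_cases hpU : p ∈ U
  · exact Or.inl (per_att h hn hp hpU)
  · exact Or.inr (per_rep h hn hp hpU)

theorem rep_perLoc [CompactSpace M] (h : Trap f U) : ∃ c : ℝ, 0 < c ∧ PerLoc f (Rep f U) c := by
  obtain ⟨η, hη, h1⟩ := (rep_closed h).isCompact.exists_thickening_subset_open
    (att_closed h).isOpen_compl (fun x hx hx' => disjoint_left.1 att_rep_disjoint hx' hx)
  refine ⟨η / 2, half_pos hη, fun p n hn hp hk => ?_⟩
  obtain ⟨a, ha, had⟩ := hk 0 (Nat.zero_le _)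
  have h2 : p ∈ (Att f U)ᶜ := h1 (by
    rw [Metric.mem_thickening_iff]
    refine ⟨a, ha, ?_⟩
    rw [dist_comm]
    have : dist a p ≤ η / 2 := had
    linarith)
  by_cases hpU : p ∈ U
  · exact absurd (per_att h hn hp hpU) h2
  · exact per_rep h hn hp hpU

/-- A closed invariant set which contains the periodic orbits close to it. -/
structure Good {M : Type u} [MetricSpace M] (f : M ≃ₜ M) (A : Set M) : Prop where
  closed : IsClosed A
  inv : ∀ x, f x ∈ A ↔ x ∈ A
  loc : ∃ c : ℝ, 0 < c ∧ PerLoc f A c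

theorem good_att [CompactSpace M] (h : Trap f U) : Good f (Att f U) :=
  ⟨att_closed h, att_inv h, att_perLoc h⟩

theorem good_rep [CompactSpace M] (h : Trap f U) : Good f (Rep f U) :=
  ⟨rep_closed h, rep_inv h, rep_perLoc h⟩

theorem good_union (h : Trap f U) : Good f (Att f U ∪ Rep f U) :=
  ⟨(att_closed h).union (rep_closed h), fun x => or_congr (att_inv h x) (rep_inv h x),
    1, one_pos, union_perLoc h 1⟩

theorem good_att' [CompactSpace M] (h : Trap f U) : Good f.symm (Att f U) := by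
  rw [← rep_symm h]
  exact good_rep (trap_symm h)

theorem good_rep' [CompactSpace M] (h : Trap f U) : Good f.symm (Rep f U) := by
  rw [← att_symm h]
  exact good_att (trap_symm h)

theorem good_union' (h : Trap f U) : Good f.symm (Att f U ∪ Rep f U) := by
  rw [union_comm, ← att_symm h, ← rep_symm h]
  exact good_union (trap_symm h)

end PerLoc

/-- The growth on an invariant field of projections, over an invariant set. -/
theorem ratOn (hKal : SpecKal.{u, v}) {M : Type u} [MetricSpace M] [CompactSpace M] {W : Type v}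
    [NormedAddCommGroup W] [InnerProductSpace ℝ W] [FiniteDimensional ℝ W] {J : Emb M W}
    {f : M ≃ₜ M} (S : Split J f) (hS : S.Hyperbolic) {A : Set M} (hA : Good f A)
    {Q : M → W →L[ℝ] W} {K C β : ℝ} (hQQ : ∀ x, Q x ∘L Q x = Q x)
    (hDQ : ∀ x, S.D x ∘L Q x = Q (f x) ∘L S.D x) (hK : ∀ x, ‖Q x‖ ≤ K) (hβ : 0 < β)
    (hβ1 : β ≤ 1) (hD : ∀ x y, ‖S.D x - S.D y‖ ≤ C * dist x y ^ β)
    (hQ : ∀ x y, ‖Q x - Q y‖ ≤ C * dist x y ^ β) {τ : ℝ}
    (hper : ∀ p ∈ A, ∀ (q : ℕ), 0 < q → f^[q] p = p → ∀ ε : ℝ, 0 < ε → ∃ C' : ℝ,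
      ∀ (n : ℕ) (w : W), ‖iterD S.D f n p (Q p w)‖ ≤ C' * Real.exp ((τ + ε) * n) * ‖w‖) :
    SRate f (cp S.D Q) τ A := by
  obtain ⟨c, hc, hloc⟩ := hA.loc
  rcases isEmpty_or_nonempty M with hM | hM
  · exact fun ε _ => ⟨0, fun n x => (hM.false x).elim⟩
  obtain ⟨B, hB⟩ := isCompact_univ.exists_bound_of_continuousOn (f := S.D)
    S.hD.cont.continuousOn
  have hB' : ∀ x, ‖S.D x‖ ≤ B := fun x => hB x (mem_univ x)
  obtain ⟨x₀⟩ := id hM
  have hB0 : 0 ≤ B := (norm_nonneg _).trans (hB' x₀)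
  have hK0 : 0 ≤ K := (norm_nonneg _).trans (hK x₀)
  have hEH : ∀ x y, ‖cp S.D Q x - cp S.D Q y‖ ≤ (B * C + C * K) * dist x y ^ β := by
    intro x y
    have h1 : cp S.D Q x - cp S.D Q y =
        S.D x ∘L (Q x - Q y) + (S.D x - S.D y) ∘L Q y := by
      ext w
      simp [cp]
    rw [h1]
    calc ‖S.D x ∘L (Q x - Q y) + (S.D x - S.D y) ∘L Q y‖
        ≤ ‖S.D x‖ * ‖Q x - Q y‖ + ‖S.D x - S.D y‖ * ‖Q y‖ :=
          (norm_add_le _ _).trans (add_le_add (ContinuousLinearMap.opNorm_comp_le _ _)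
            (ContinuousLinearMap.opNorm_comp_le _ _))
      _ ≤ B * (C * dist x y ^ β) + (C * dist x y ^ β) * K :=
          add_le_add (mul_le_mul (hB' x) (hQ x y) (norm_nonneg _) hB0)
            (mul_le_mul (hD x y) (hK y) (norm_nonneg _) ((norm_nonneg _).trans (hD x y)))
      _ = _ := by ring
  have hEB : ∀ x, ‖cp S.D Q x‖ ≤ B * K := fun x =>
    (ContinuousLinearMap.opNorm_comp_le _ _).trans
      (mul_le_mul (hB' x) (hK x) (norm_nonneg _) hB0)
  refine kalOn hKal S hS hA.closed hA.inv hc hloc (cp S.D Q) (B * K) (B * C + C * K) β hEB hβ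
    hβ1 hEH τ fun p hpA q hq hp ε hε => ?_
  obtain ⟨C₁, hC₁⟩ := hper p hpA q hq hp ε hε
  refine ⟨max |C₁| 1, fun n => ?_⟩
  rcases eq_or_ne n 0 with rfl | hn
  · have h1 : ‖iterD (cp S.D Q) f 0 p‖ ≤ 1 := by
      simpa [iterD] using ContinuousLinearMap.norm_id_le
    simpa using h1.trans (le_max_right |C₁| 1)
  · refine cp_norm_le hQQ hDQ (by positivity) (fun w => (hC₁ n w).trans ?_) hn
    have h2 : C₁ ≤ max |C₁| 1 := (le_abs_self C₁).trans (le_max_left _ _)
    gcongr

end Pool.Agent.Lib.MP610fe3.AP
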