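import Pool.Agent.Lib.MP_610fe3_an.AP.Block
import Pool.Agent.Lib.MP_610fe3_an.H6N.Mfd

/-!
# The inequality for an attractor and its repeller, for splittings
-/

open Set Filter Function
open scoped Topology

namespace Pool.Agent.Lib.MP610fe3.AP

open N3 TM H6 PR
open Cf hiding Att Trap

universe u v

section Extend

variable {M : Type u} [MetricSpace M] [CompactSpace M] {Y : Type v} [NormedAddCommGroup Y]
  [NormedSpace ℝ Y] {E : M → Y →L[ℝ] Y} {f : M ≃ₜ M} {U : Set M} {c : ℝ}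

theorem SRate.all (h : SRate f E c (Att f U ∪ Rep f U)) (hT : Trap f U) (hE : Continuous E) :
    SRate f E c univ := by
  intro ε hε
  obtain ⟨V, hV, hKV, H⟩ := h.ext f.continuous hE hε
  obtain ⟨N, hN⟩ := bad_all hT hV hKV
  obtain ⟨C, -, hC⟩ := H N
  exact ⟨C, fun n x _ => hC n x (hN n x)⟩

theorem SRate.fwd (h : SRate f E c (Att f U)) (hT : Trap f U) (hE : Continuous E) :
    SRate f E c U := by
  intro ε hε
  obtain ⟨V, hV, hKV, H⟩ := h.ext f.continuous hE hε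
  obtain ⟨N, hN⟩ := bad_fwd hT hV hKV
  obtain ⟨C, -, hC⟩ := H N
  exact ⟨C, fun n x hx => hC n x (hN n x hx)⟩

theorem SRate.bwd (h : SRate f.symm E c (Att f U)) (hT : Trap f U) (hE : Continuous E) {ε : ℝ}
    (hε : 0 < ε) : ∃ C : ℝ, ∀ (n : ℕ) (x : M), (∀ t < n, f.symm^[t] x ∈ U) →
      ‖iterD E f.symm n x‖ ≤ C * Real.exp ((c + ε) * n) := by
  obtain ⟨V, hV, hKV, H⟩ := h.ext f.symm.continuous hE hε
  obtain ⟨N, hN⟩ := bad_bwd hT hV hKV
  obtain ⟨C, -, hC⟩ := H N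
  exact ⟨C, fun n x hx => hC n x (hN n x hx)⟩

end Extend

/-- The cocycle `D` on the field of projections `Q`. -/
def cp {M : Type u} {W : Type v} [NormedAddCommGroup W] [NormedSpace ℝ W]
    (D Q : M → W →L[ℝ] W) (x : M) : W →L[ℝ] W := D x ∘L Q x

theorem cp_iter {M : Type u} {W : Type v} [NormedAddCommGroup W] [NormedSpace ℝ W]
    {D Q : M → W →L[ℝ] W} {g : M → M} (hQ : ∀ x, Q x ∘L Q x = Q x)
    (hDQ : ∀ x, D x ∘L Q x = Q (g x) ∘L D x) (n : ℕ) (x : M) (w : W) :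
    iterD (cp D Q) g n x (Q x w) = iterD D g n x (Q x w) := by
  have hQ' : ∀ x w, Q x (Q x w) = Q x w := fun x w =>
    congrArg (fun T : W →L[ℝ] W => T w) (hQ x)
  have hDQ' : ∀ x w, D x (Q x w) = Q (g x) (D x w) := fun x w =>
    congrArg (fun T : W →L[ℝ] W => T w) (hDQ x)
  induction n generalizing x w with
  | zero => rfl
  | succ n ih =>
    show iterD (cp D Q) g n (g x) (D x (Q x (Q x w))) = iterD D g n (g x) (D x (Q x w))
    rw [hQ', hDQ', ih]

/-- The products of `cp D Q` are bounded by those of `D` on the range of `Q`. -/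
theorem cp_norm_le {M : Type u} {W : Type v} [NormedAddCommGroup W] [NormedSpace ℝ W]
    {D Q : M → W →L[ℝ] W} {g : M → M} (hQ : ∀ x, Q x ∘L Q x = Q x)
    (hDQ : ∀ x, D x ∘L Q x = Q (g x) ∘L D x) {n : ℕ} {x : M} {C : ℝ} (hC : 0 ≤ C)
    (h : ∀ w, ‖iterD D g n x (Q x w)‖ ≤ C * ‖w‖) (hn : n ≠ 0) : ‖iterD (cp D Q) g n x‖ ≤ C := by
  obtain ⟨m, rfl⟩ := Nat.exists_eq_succ_of_ne_zero hn
  refine ContinuousLinearMap.opNorm_le_bound _ hC fun w => ?_
  have e : iterD (cp D Q) g m.succ x w = iterD (cp D Q) g m.succ x (Q x w) := by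
    show iterD (cp D Q) g m (g x) (D x (Q x w)) = iterD (cp D Q) g m (g x) (D x (Q x (Q x w)))
    have hQ' : Q x (Q x w) = Q x w := congrArg (fun T : W →L[ℝ] W => T w) (hQ x)
    rw [hQ']
  rw [e, cp_iter hQ hDQ]
  exact h w

theorem cp_apply_le {M : Type u} {W : Type v} [NormedAddCommGroup W] [NormedSpace ℝ W]
    {D Q : M → W →L[ℝ] W} {g : M → M} (hQ : ∀ x, Q x ∘L Q x = Q x)
    (hDQ : ∀ x, D x ∘L Q x = Q (g x) ∘L D x) {K : ℝ} (hK : ∀ x, ‖Q x‖ ≤ K) {n : ℕ} {x : M}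
    {C t : ℝ} (h : ‖iterD (cp D Q) g n x‖ ≤ C * Real.exp (t * n)) (w : W) :
    ‖iterD D g n x (Q x w)‖ ≤ C * K * Real.exp t ^ n * ‖w‖ := by
  rw [← cp_iter hQ hDQ, ← Real.exp_nat_mul, mul_comm (n : ℝ) t]
  have h0 : 0 ≤ C * Real.exp (t * n) := (norm_nonneg _).trans h
  calc ‖iterD (cp D Q) g n x (Q x w)‖ ≤ ‖iterD (cp D Q) g n x‖ * ‖Q x w‖ :=
        ContinuousLinearMap.le_opNorm _ _
    _ ≤ (C * Real.exp (t * n)) * (K * ‖w‖) :=
        mul_le_mul h ((Q x).le_of_opNorm_le (hK x) w) (norm_nonneg _) h0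
    _ = _ := by ring

/-- The data of an attractor and its repeller, for splittings. -/
structure SBounds {M : Type u} [MetricSpace M] {W : Type v} [NormedAddCommGroup W]
    [NormedSpace ℝ W] {J : Emb M W} {f : M ≃ₜ M} (S : Split J f) (ds du : ℕ) (A R F F' : Set M)
    (s u a b a' b' : ℝ) : Prop where
  s_all : SRate f (cp S.D S.S) (-s) (A ∪ R)
  u_all : SRate f.symm (cp S.Di S.U) (-u) (A ∪ R)
  u_low : SRate f.symm (cp S.Di S.U) (-a) A
  u_up : SRate f (cp S.D S.U) b A ∨ ∀ h : ℝ, b + ((du : ℝ) - 1) * a < h → HasCoversOn f F h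
  s_low : SRate f (cp S.D S.S) (-a') R
  s_up : SRate f.symm (cp S.Di S.S) b' R ∨
    ∀ h : ℝ, b' + ((ds : ℝ) - 1) * a' < h → HasCoversOn f.symm F' h

section Pair

variable {M : Type v} {W : Type u} [MetricSpace M] [CompactSpace M] [NormedAddCommGroup W]
  [InnerProductSpace ℝ W] [FiniteDimensional ℝ W] {J : Emb M W} {f : M ≃ₜ M}

theorem SBounds.swap {S : Split J f} {ds du : ℕ} {A R F F' : Set M} {s u a b a' b' : ℝ}
    (h : SBounds S ds du A R F F' s u a b a' b') :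
    SBounds S.swap du ds R A F' F u s a' b' a b where
  s_all := by
    rw [union_comm]
    exact h.u_all
  u_all := by
    rw [union_comm]
    exact h.s_all
  u_low := h.s_low
  u_up := h.s_up
  s_low := h.u_low
  s_up := h.u_up

/-- The first inequality up to `δ`. -/
theorem pair_delta (S : Split J f) (hS : S.Hyperbolic) {ds du : ℕ}
    (hds : ∀ x, Module.finrank ℝ ((S.S x).range) = ds)
    (hdu : ∀ x, Module.finrank ℝ ((S.U x).range) = du) {U F F' : Set M} (hT : Trap f U)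
    (hfr : (frontier U).Nonempty) (hF : closure U ⊆ F) (hF' : closure (closure U)ᶜ ⊆ F')
    {s u a b a' b' : ℝ} (hsa : s ≤ a') (hua : u ≤ a)
    (h : SBounds S ds du (Att f U) (Rep f U) F F' s u a b a' b') {δ : ℝ} (hδ : 0 < δ)
    (hδs : δ < s) (hδu : δ < u) :
    (u - δ) * (s - δ) ≤ (max (b + (du + 1) * δ) (a - δ) - (a - δ)) *
      (max (b' + (ds + 1) * δ) (a' - δ) - (s - δ)) := by
  have hT' := trap_symm hT
  have hA' : Att f.symm (closure U)ᶜ = Rep f U := att_symm hT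
  have hR' : Rep f.symm (closure U)ᶜ = Att f U := rep_symm hT
  have cD : Continuous S.D := S.hD.cont
  have cDi : Continuous S.Di := S.hDi.cont
  have cS : Continuous S.S := S.continuous_S hS
  have cU : Continuous S.U := S.continuous_U hS
  have c1 : Continuous (cp S.D S.S) := cD.clm_comp cS
  have c2 : Continuous (cp S.D S.U) := cD.clm_comp cU
  have c3 : Continuous (cp S.Di S.S) := cDi.clm_comp cS
  have c4 : Continuous (cp S.Di S.U) := cDi.clm_comp cU
  obtain ⟨K, hK1, hK⟩ := S.exists_bdd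
  have hKS : ∀ x, ‖S.S x‖ ≤ K := fun x => (hK x).1
  have hKU : ∀ x, ‖S.U x‖ ≤ K := fun x => (hK x).2
  -- the six estimates
  obtain ⟨C₁, hC₁⟩ := (h.s_all.all hT c1) δ hδ
  obtain ⟨C₂, hC₂⟩ := (SRate.all (f := f.symm) (U := (closure U)ᶜ) (by
    rw [hA', hR', union_comm]
    exact h.u_all) hT' c4) δ hδ
  obtain ⟨C₃, hC₃⟩ := h.u_low.bwd hT c4 hδ
  obtain ⟨C₄, hC₄⟩ := SRate.bwd (f := f.symm) (U := (closure U)ᶜ) (E := cp S.D S.S) (c := -a')
    (by
      rw [hA']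
      exact h.s_low) hT' c1 hδ
  have hb : ∃ C₅ : ℝ, (∀ (k : ℕ), ∀ x ∈ U, ∀ w : W,
      ‖iterD S.D f k x (S.U x w)‖ ≤ C₅ * Real.exp (b + (du + 1) * δ) ^ k * ‖w‖) ∨
      ∀ h : ℝ, b + (du + 1) * δ + ((du : ℝ) - 1) * (a - δ) < h → HasCoversOn f (closure U) h := by
    rcases h.u_up with h5 | h5
    · obtain ⟨C₅, hC₅⟩ := (h5.fwd hT c2) δ hδ
      refine ⟨|C₅| * K, Or.inl fun k x hx w => ?_⟩
      have h6 := hC₅ k x hx
      have h7 : ‖iterD (cp S.D S.U) f k x‖ ≤ |C₅| * Real.exp ((b + (du + 1) * δ) * k) := by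
        refine h6.trans ?_
        have h8 : (b + δ) * (k : ℝ) ≤ (b + (du + 1) * δ) * k := by
          have : 0 ≤ (du : ℝ) * δ := by positivity
          have hk : (0 : ℝ) ≤ k := Nat.cast_nonneg k
          nlinarith
        have h9 := le_abs_self C₅
        gcongr
      exact cp_apply_le S.UU S.DU hKU h7 w
    · refine ⟨0, Or.inr fun h' hh' => (h5 h' ?_).mono hF⟩
      have e1 : b + (du + 1) * δ + ((du : ℝ) - 1) * (a - δ) =
          b + ((du : ℝ) - 1) * a + 2 * δ := by ring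
      linarith
  have hb' : ∃ C₆ : ℝ, (∀ (k : ℕ), ∀ x ∈ (closure U)ᶜ, ∀ w : W,
      ‖iterD S.Di f.symm k x (S.S x w)‖ ≤ C₆ * Real.exp (b' + (ds + 1) * δ) ^ k * ‖w‖) ∨
      ∀ h : ℝ, b' + (ds + 1) * δ + ((ds : ℝ) - 1) * (a' - δ) < h →
        HasCoversOn f.symm (closure (closure U)ᶜ) h := by
    rcases h.s_up with h5 | h5
    · obtain ⟨C₅, hC₅⟩ := (SRate.fwd (f := f.symm) (U := (closure U)ᶜ) (by
        rw [hA']
        exact h5) hT' c3) δ hδ
      refine ⟨|C₅| * K, Or.inl fun k x hx w => ?_⟩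
      have h6 := hC₅ k x hx
      have h7 : ‖iterD (cp S.Di S.S) f.symm k x‖ ≤
          |C₅| * Real.exp ((b' + (ds + 1) * δ) * k) := by
        refine h6.trans ?_
        have h8 : (b' + δ) * (k : ℝ) ≤ (b' + (ds + 1) * δ) * k := by
          have : 0 ≤ (ds : ℝ) * δ := by positivity
          have hk : (0 : ℝ) ≤ k := Nat.cast_nonneg k
          nlinarith
        have h9 := le_abs_self C₅
        gcongr
      exact cp_apply_le S.SS S.swap.DU hKS h7 w
    · refine ⟨0, Or.inr fun h' hh' => (h5 h' ?_).mono hF'⟩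
      have e1 : b' + (ds + 1) * δ + ((ds : ℝ) - 1) * (a' - δ) =
          b' + ((ds : ℝ) - 1) * a' + 2 * δ := by ring
      linarith
  obtain ⟨C₅, H₅⟩ := hb
  obtain ⟨C₆, H₆⟩ := hb'
  have d1 : ∀ (k : ℕ) (x : M) (w : W),
      ‖iterD S.D f k x (S.S x w)‖ ≤ C₁ * K * Real.exp (-(s - δ)) ^ k * ‖w‖ := fun k x w => by
    have h1 := hC₁ k x (mem_univ x)
    rw [show -s + δ = -(s - δ) by ring] at h1
    exact cp_apply_le S.SS S.DS hKS h1 w
  have d2 : ∀ (k : ℕ) (x : M) (w : W),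
      ‖iterD S.Di f.symm k x (S.U x w)‖ ≤ C₂ * K * Real.exp (-(u - δ)) ^ k * ‖w‖ :=
    fun k x w => by
      have h1 := hC₂ k x (mem_univ x)
      rw [show -u + δ = -(u - δ) by ring] at h1
      exact cp_apply_le S.UU S.swap.DS hKU h1 w
  have d3 : ∀ (k : ℕ) (x : M), (∀ t < k, f.symm^[t] x ∈ U) → ∀ w : W,
      ‖iterD S.Di f.symm k x (S.U x w)‖ ≤ C₃ * K * Real.exp (-(a - δ)) ^ k * ‖w‖ :=
    fun k x hx w => by
      have h1 := hC₃ k x hx
      rw [show -a + δ = -(a - δ) by ring] at h1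
      exact cp_apply_le S.UU S.swap.DS hKU h1 w
  have d4 : ∀ (k : ℕ) (x : M), (∀ t < k, f^[t] x ∈ (closure U)ᶜ) → ∀ w : W,
      ‖iterD S.D f k x (S.S x w)‖ ≤ C₄ * K * Real.exp (-(a' - δ)) ^ k * ‖w‖ :=
    fun k x hx w => by
      have h1 := hC₄ k x hx
      rw [show -a' + δ = -(a' - δ) by ring] at h1
      exact cp_apply_le S.SS S.DS hKS h1 w
  set C₀ : ℝ := max (max (max (C₁ * K) (C₂ * K)) (max (C₃ * K) (C₄ * K))) (max (max C₅ C₆) 0)
    with hC₀
  have hC₀0 : 0 ≤ C₀ := (le_max_right _ _).trans (le_max_right _ _)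
  have hup : ∀ {κ c' : ℝ} (k : ℕ) {t r : ℝ}, c' ≤ C₀ → 0 ≤ κ → 0 ≤ t → r ≤ c' * κ ^ k * t →
      r ≤ C₀ * κ ^ k * t := by
    intro κ c' k t r hc' hκ ht h
    refine h.trans ?_
    have : 0 ≤ κ ^ k := pow_nonneg hκ k
    gcongr
  have l1 : C₁ * K ≤ C₀ :=
    (le_max_left _ _).trans ((le_max_left _ _).trans (le_max_left _ _))
  have l2 : C₂ * K ≤ C₀ :=
    (le_max_right _ _).trans ((le_max_left _ _).trans (le_max_left _ _))
  have l3 : C₃ * K ≤ C₀ :=
    (le_max_left _ _).trans ((le_max_right _ _).trans (le_max_left _ _))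
  have l4 : C₄ * K ≤ C₀ :=
    (le_max_right _ _).trans ((le_max_right _ _).trans (le_max_left _ _))
  have l5 : C₅ ≤ C₀ :=
    (le_max_left _ _).trans ((le_max_left _ _).trans (le_max_right _ _))
  have l6 : C₆ ≤ C₀ :=
    (le_max_right _ _).trans ((le_max_left _ _).trans (le_max_right _ _))
  have htrap : f '' closure U ⊆ U := by
    rintro _ ⟨x, hx, rfl⟩
    exact hT.maps x hx
  exact split_trap specDecOn specSlowOn S hS hds hdu (χs := s - δ) (χu := u - δ) (χR := a' - δ)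
    (χA := a - δ) (bR := b' + (ds + 1) * δ) (bA := b + (du + 1) * δ) hC₀0 (by linarith)
    (by linarith) (by linarith) (by linarith) hT.isOpen htrap hfr
    (fun k x w => hup k l1 (Real.exp_pos _).le (norm_nonneg _) (d1 k x w))
    (fun k x w => hup k l2 (Real.exp_pos _).le (norm_nonneg _) (d2 k x w))
    (fun k x hx w => hup k l4 (Real.exp_pos _).le (norm_nonneg _) (d4 k x hx w))
    (fun k x hx w => hup k l3 (Real.exp_pos _).le (norm_nonneg _) (d3 k x hx w))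
    (H₆.imp (fun h k x hx w => hup k l6 (Real.exp_pos _).le (norm_nonneg _) (h k x hx w)) id)
    (H₅.imp (fun h k x hx w => hup k l5 (Real.exp_pos _).le (norm_nonneg _) (h k x hx w)) id)

theorem pair_max (S : Split J f) (hS : S.Hyperbolic) {ds du : ℕ}
    (hds : ∀ x, Module.finrank ℝ ((S.S x).range) = ds)
    (hdu : ∀ x, Module.finrank ℝ ((S.U x).range) = du) {U F F' : Set M} (hT : Trap f U)
    (hfr : (frontier U).Nonempty) (hF : closure U ⊆ F) (hF' : closure (closure U)ᶜ ⊆ F')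
    {s u a b a' b' : ℝ} (hs : 0 < s) (hsa : s ≤ a') (hu : 0 < u) (hua : u ≤ a)
    (h : SBounds S ds du (Att f U) (Rep f U) F F' s u a b a' b') :
    u * s ≤ (max b a - a) * (max b' a' - s) := by
  by_contra hcon
  push Not at hcon
  have hc1 : ContinuousAt (fun δ : ℝ => (max (b + (du + 1) * δ) (a - δ) - (a - δ)) *
      (max (b' + (ds + 1) * δ) (a' - δ) - (s - δ))) 0 := by fun_prop
  have hc2 : ContinuousAt (fun δ : ℝ => (u - δ) * (s - δ)) 0 := by fun_prop
  have h3 : ∀ᶠ δ in 𝓝 (0 : ℝ), (max (b + (du + 1) * δ) (a - δ) - (a - δ)) *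
      (max (b' + (ds + 1) * δ) (a' - δ) - (s - δ)) < (u - δ) * (s - δ) := by
    refine hc1.eventually_lt hc2 ?_
    simp only [mul_zero, add_zero, sub_zero]
    exact hcon
  have h4 : ∀ᶠ δ in 𝓝 (0 : ℝ), δ < s := gt_mem_nhds hs
  have h5 : ∀ᶠ δ in 𝓝 (0 : ℝ), δ < u := gt_mem_nhds hu
  have h6 : ∀ᶠ δ in 𝓝[>] (0 : ℝ), (δ < s ∧ δ < u) ∧
      (max (b + (du + 1) * δ) (a - δ) - (a - δ)) *
      (max (b' + (ds + 1) * δ) (a' - δ) - (s - δ)) < (u - δ) * (s - δ) :=
    nhdsWithin_le_nhds ((h4.and h5).and h3)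
  obtain ⟨δ, h7, h8⟩ := (h6.and self_mem_nhdsWithin).exists
  exact absurd (pair_delta S hS hds hdu hT hfr hF hF' hsa hua h h8 h7.1.1 h7.1.2)
    (not_le.2 h7.2)

/-- **The inequalities for an attractor and its repeller.** -/
theorem pair (S : Split J f) (hS : S.Hyperbolic) {ds du : ℕ}
    (hds : ∀ x, Module.finrank ℝ ((S.S x).range) = ds)
    (hdu : ∀ x, Module.finrank ℝ ((S.U x).range) = du) {U F F' : Set M} (hT : Trap f U)
    (hfr : (frontier U).Nonempty) (hfr' : (frontier (closure U)ᶜ).Nonempty)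
    (hF : closure U ⊆ F) (hF' : closure (closure U)ᶜ ⊆ F')
    {s u a b a' b' : ℝ} (hs : 0 < s) (hsa : s ≤ a') (hu : 0 < u) (hua : u ≤ a)
    (h : SBounds S ds du (Att f U) (Rep f U) F F' s u a b a' b') :
    u * s ≤ (b - a) * (b' - s) ∧ u * s ≤ (b - u) * (b' - a') := by
  have h1 := pair_max S hS hds hdu hT hfr hF hF' hs hsa hu hua h
  have h2 := pair_max S.swap hS.swap (f := f.symm) (U := (closure U)ᶜ) (F := F') (F' := F)
    (ds := du) (du := ds) hdu hds (trap_symm hT) hfr' hF' (by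
      refine (closure_minimal ?_ isClosed_closure).trans hF
      rw [compl_subset_comm]
      exact subset_closure) hu hua hs hsa (by
      rw [att_symm hT, rep_symm hT]
      exact h.swap)
  have h3 : 0 < u * s := by positivity
  rcases le_total b a with h4 | h4
  · rw [max_eq_right h4, sub_self, zero_mul] at h1
    linarith
  rcases le_total b' a' with h5 | h5
  · rw [max_eq_right h5, sub_self, zero_mul] at h2
    linarith
  rw [max_eq_left h4, max_eq_left h5] at h1 h2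
  exact ⟨h1, by linarith⟩

end Pair

end Pool.Agent.Lib.MP610fe3.AP
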